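import Mathlib

set_option autoImplicit false

/-! Frobenius roots in `F_2[x,y]`. -/

namespace Pool.Agent.J4H55.MTI

open MvPolynomial

/-- the polynomial ring `F_2[x,y]`. -/
abbrev R := MvPolynomial (Fin 2) (ZMod 2)

/-- the exponent map `m ↦ q m + r`. -/
noncomputable def em (q : ℕ) (r m : Fin 2 →₀ ℕ) : Fin 2 →₀ ℕ := q • m + r

lemma em_inj (q : ℕ) (hq : 0 < q) (r : Fin 2 →₀ ℕ) : Function.Injective (em q r) := by
  intro a b h
  have h2 : q • a = q • b := by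
    have := h
    simp only [em] at this
    exact add_right_cancel this
  ext i
  have h3 := DFunLike.congr_fun h2 i
  simp only [Finsupp.coe_smul, Pi.smul_apply, smul_eq_mul] at h3
  exact Nat.eq_of_mul_eq_mul_left hq h3

/-- coefficient extraction. -/
noncomputable def ext (q : ℕ) (hq : 0 < q) (r : Fin 2 →₀ ℕ) (h : R) : R :=
  AddMonoidAlgebra.ofCoeff (Finsupp.comapDomain (em q r) (AddMonoidAlgebra.coeff h) ((em_inj q hq r).injOn))

lemma coeff_ext (q : ℕ) (hq : 0 < q) (r m : Fin 2 →₀ ℕ) (h : R) :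
    coeff m (ext q hq r h) = coeff (q • m + r) h := by
  rfl

lemma ext_add (q : ℕ) (hq : 0 < q) (r : Fin 2 →₀ ℕ) (h h' : R) :
    ext q hq r (h + h') = ext q hq r h + ext q hq r h' := by
  ext m
  simp [coeff_ext]

lemma ext_zero (q : ℕ) (hq : 0 < q) (r : Fin 2 →₀ ℕ) :
    ext q hq r 0 = 0 := by
  ext m
  simp [coeff_ext]

lemma ext_mul (e : ℕ) (hq : 0 < 2 ^ e) (r : Fin 2 →₀ ℕ) (hr : ∀ i, r i < 2 ^ e) (g h : R) :
    ext (2 ^ e) hq r (g ^ (2 ^ e) * h) = g * ext (2 ^ e) hq r h := by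
  induction g using MvPolynomial.induction_on' with
  | monomial a c =>
    ext m
    rw [monomial_pow, coeff_ext, coeff_monomial_mul', coeff_monomial_mul', coeff_ext]
    have hc : c ^ (2 ^ e) = c := by
      have := ZMod.pow_card_pow (p := 2) (n := e) c
      exact this
    have hle : (2 ^ e) • a ≤ (2 ^ e) • m + r ↔ a ≤ m := by
      constructor
      · intro h1 i
        have h2 := h1 i
        simp only [Finsupp.coe_smul, Pi.smul_apply, smul_eq_mul, Finsupp.coe_add, Pi.add_apply] at h2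
        have h3 := hr i
        by_contra h4
        push Not at h4
        have h5 : 2 ^ e * (m i + 1) ≤ 2 ^ e * a i := Nat.mul_le_mul_left _ h4
        rw [mul_add, mul_one] at h5
        omega
      · intro h1
        exact le_trans (nsmul_le_nsmul_right h1 _) le_self_add
    rw [hc]
    by_cases h1 : a ≤ m
    · rw [if_pos (hle.mpr h1), if_pos h1]
      congr 1
      congr 1
      ext i
      have := h1 i
      simp only [Finsupp.coe_smul, Pi.smul_apply, smul_eq_mul, Finsupp.coe_add, Pi.add_apply,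
        Finsupp.coe_tsub, Pi.sub_apply]
      rw [Nat.mul_sub]
      have h6 : 2 ^ e * a i ≤ 2 ^ e * m i := Nat.mul_le_mul_left _ this
      omega
    · rw [if_neg (fun h2 => h1 (hle.mp h2)), if_neg h1]
  | add p q hp hq' =>
    rw [add_pow_char_pow, add_mul, ext_add, hp, hq', add_mul]

/-- elements of the Frobenius power of `K` have their coefficients in `K`. -/
lemma ext_mem' (e : ℕ) (hq : 0 < 2 ^ e) (r : Fin 2 →₀ ℕ) (hr : ∀ i, r i < 2 ^ e)
    (K : Ideal R) (f : R) (hf : f ∈ Ideal.map (iterateFrobenius R 2 e) K) :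
    ∀ a : R, ext (2 ^ e) hq r (a * f) ∈ K := by
  rw [Ideal.map] at hf
  induction hf using Submodule.span_induction with
  | mem x hx =>
    intro a
    obtain ⟨k, hk, rfl⟩ := hx
    have : a * (iterateFrobenius R 2 e) k = k ^ (2 ^ e) * a := by
      rw [iterateFrobenius_def, mul_comm]
    rw [this, ext_mul e hq r hr]
    exact K.mul_mem_right _ hk
  | zero => intro a; rw [mul_zero, ext_zero]; exact K.zero_mem
  | add x y _ _ hx hy =>
    intro a; rw [mul_add, ext_add]; exact K.add_mem (hx a) (hy a)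
  | smul b x hx' hx =>
    intro a
    have := hx (a * b)
    rwa [smul_eq_mul, ← mul_assoc]

lemma ext_mem (e : ℕ) (hq : 0 < 2 ^ e) (r : Fin 2 →₀ ℕ) (hr : ∀ i, r i < 2 ^ e)
    (K : Ideal R) (f : R) (hf : f ∈ Ideal.map (iterateFrobenius R 2 e) K) :
    ext (2 ^ e) hq r f ∈ K := by
  have := ext_mem' e hq r hr K f hf 1
  rwa [one_mul] at this

/-- `(x+y)^(2^c-1)` is the sum of all monomials of that degree. -/
lemma pow_two_sub (c : ℕ) :
    ((X 0 + X 1 : R)) ^ (2 ^ c - 1) =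
      ∑ i ∈ Finset.range (2 ^ c), (X 0 : R) ^ i * (X 1 : R) ^ (2 ^ c - 1 - i) := by
  have h2 : (2 : R) = 0 := CharTwo.two_eq_zero
  have hne : (X 0 + X 1 : R) ≠ 0 := by
    intro h
    have := congrArg (MvPolynomial.eval (fun i : Fin 2 => if i = 0 then (1 : ZMod 2) else 0)) h
    simp at this
  apply mul_right_cancel₀ hne
  rw [← pow_succ, Nat.sub_add_cancel Nat.one_le_two_pow, add_pow_char_pow]
  have hg := (Commute.all (X 0 : R) (X 1)).geom_sum₂_mul (2 ^ c)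
  have h3 : (X 0 - X 1 : R) = X 0 + X 1 := CharTwo.sub_eq_add _ _
  rw [h3] at hg
  rw [hg]
  exact (CharTwo.sub_eq_add _ _).symm

lemma mono_eq (a b : ℕ) : (X 0 : R) ^ a * (X 1 : R) ^ b =
    monomial (Finsupp.single 0 a + Finsupp.single 1 b) 1 := by
  rw [X_pow_eq_monomial, X_pow_eq_monomial, monomial_mul, mul_one]

lemma ext_g (e c : ℕ) (hq : 0 < 2 ^ e) (hc : 2 ^ c < 2 ^ e) :
    ext (2 ^ e) hq (Finsupp.single 0 (2 ^ e - 1) + Finsupp.single 1 (2 ^ e - 2))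
      ((X 0 * X 1 : R) ^ (2 ^ e - 1 - 2 ^ c) * (X 0 + X 1) ^ (2 ^ (c + 1) - 1)) = 1 := by
  have h1 : (X 0 * X 1 : R) ^ (2 ^ e - 1 - 2 ^ c) * (X 0 + X 1) ^ (2 ^ (c + 1) - 1) =
      ∑ i ∈ Finset.range (2 ^ (c + 1)),
        monomial (Finsupp.single 0 (2 ^ e - 1 - 2 ^ c + i) +
          Finsupp.single 1 (2 ^ e - 1 - 2 ^ c + (2 ^ (c + 1) - 1 - i))) (1 : ZMod 2) := by
    rw [pow_two_sub, Finset.mul_sum]
    refine Finset.sum_congr rfl fun i _ => ?_
    rw [← mono_eq, mul_pow, pow_add, pow_add]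
    ring
  have hcpos : 0 < 2 ^ c := Nat.two_pow_pos c
  have hc1 : 2 ^ (c + 1) = 2 * 2 ^ c := by rw [pow_succ]; ring
  ext m
  rw [coeff_ext, h1, coeff_sum]
  simp only [coeff_monomial]
  rw [coeff_one]
  by_cases hm : m = 0
  · subst hm
    rw [if_pos rfl, smul_zero, zero_add]
    rw [Finset.sum_eq_single (2 ^ c)]
    · rw [if_pos]
      congr 2
      · omega
      · omega
    · intro b _ hb
      rw [if_neg]
      intro h
      have h0 := DFunLike.congr_fun h 0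
      simp at h0
      omega
    · intro h
      exfalso
      apply h
      rw [Finset.mem_range]
      omega
  · rw [if_neg (Ne.symm hm)]
    apply Finset.sum_eq_zero
    intro i hi
    rw [Finset.mem_range] at hi
    rw [if_neg]
    intro h
    have h0 := DFunLike.congr_fun h 0
    have h1 := DFunLike.congr_fun h 1
    simp at h0 h1
    have hmm : m 0 = 0 ∧ m 1 = 0 := by
      by_contra hcon
      have : 1 ≤ m 0 + m 1 := by omega
      have h3 : 2 ^ e * 1 ≤ 2 ^ e * (m 0 + m 1) := Nat.mul_le_mul_left _ this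
      rw [mul_add] at h3
      omega
    apply hm
    ext j
    fin_cases j
    · simpa using hmm.1
    · simpa using hmm.2

/-- if a low enough `(xy)^A (x+y)^B` is in the `2^e`-th Frobenius power of `K`, then `K` is the
unit ideal. -/
lemma top_of (e c A B : ℕ) (hA : A + 2 ^ c < 2 ^ e) (hB : B < 2 ^ (c + 1))
    (K : Ideal R) (hf : (X 0 * X 1 : R) ^ A * (X 0 + X 1) ^ B ∈
      Ideal.map (iterateFrobenius R 2 e) K) : K = ⊤ := by
  have hq : 0 < 2 ^ e := Nat.two_pow_pos e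
  have hcpos : 0 < 2 ^ c := Nat.two_pow_pos c
  rw [Ideal.eq_top_iff_one, ← ext_g e c hq (by omega)]
  apply ext_mem
  · intro i
    fin_cases i
    · simp
    · simp
  · have h1 : (X 0 * X 1 : R) ^ (2 ^ e - 1 - 2 ^ c) * (X 0 + X 1) ^ (2 ^ (c + 1) - 1) =
      ((X 0 * X 1 : R) ^ (2 ^ e - 1 - 2 ^ c - A) * (X 0 + X 1) ^ (2 ^ (c + 1) - 1 - B)) *
        ((X 0 * X 1 : R) ^ A * (X 0 + X 1) ^ B) := by
      have e1 : 2 ^ e - 1 - 2 ^ c = (2 ^ e - 1 - 2 ^ c - A) + A := by omega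
      have e2 : 2 ^ (c + 1) - 1 = (2 ^ (c + 1) - 1 - B) + B := by omega
      conv_lhs => rw [e1, e2, pow_add, pow_add]
      ring
    rw [h1]
    exact Ideal.mul_mem_left _ _ hf

/-- the maximal ideal `(x,y)`. -/
noncomputable def mx : Ideal R := Ideal.span {X 0, X 1}

lemma mx_ne_top : mx ≠ ⊤ := by
  intro h
  have h1 : (1 : R) ∈ mx := by rw [h]; trivial
  have h2 : mx ≤ RingHom.ker (MvPolynomial.eval (fun _ : Fin 2 => (0 : ZMod 2))) := by
    rw [mx, Ideal.span_le]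
    rintro x (rfl | rfl)
    · simp [RingHom.mem_ker]
    · simp [RingHom.mem_ker]
  have h3 := h2 h1
  rw [RingHom.mem_ker, map_one] at h3
  exact one_ne_zero h3

lemma X_mem (e : ℕ) (i : Fin 2) : (X i : R) ^ (2 ^ e) ∈ Ideal.map (iterateFrobenius R 2 e) mx := by
  have : (X i : R) ^ (2 ^ e) = iterateFrobenius R 2 e (X i) := by rw [iterateFrobenius_def]
  rw [this]
  apply Ideal.mem_map_of_mem
  apply Ideal.subset_span
  fin_cases i
  · simp
  · simp

lemma in_mx (e m A B : ℕ) (h : 2 ^ e ≤ A ∨ ∃ Q, 2 ^ e = 2 ^ m * 2 ^ Q ∧ 2 ^ e ≤ A + 2 ^ Q ∧ 2 ^ Q ≤ B) :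
    (X 0 * X 1 : R) ^ A * (X 0 + X 1) ^ B ∈ Ideal.map (iterateFrobenius R 2 e) mx := by
  rcases h with h | ⟨Q, h1, h2, h3⟩
  · have : (X 0 * X 1 : R) ^ A * (X 0 + X 1) ^ B =
        ((X 0) ^ (A - 2 ^ e) * (X 1) ^ A * (X 0 + X 1) ^ B) * (X 0 : R) ^ (2 ^ e) := by
      have e1 : A = (A - 2 ^ e) + 2 ^ e := by omega
      rw [mul_pow]
      conv_lhs => rw [show (X 0 : R) ^ A = X 0 ^ ((A - 2 ^ e) + 2 ^ e) by rw [← e1]]
      rw [pow_add]
      ring
    rw [this]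
    exact Ideal.mul_mem_left _ _ (X_mem e 0)
  · have hQe : 2 ^ Q ≤ 2 ^ e := by
      rw [h1]; exact Nat.le_mul_of_pos_left _ (Nat.two_pow_pos m)
    have hb : (X 0 + X 1 : R) ^ B = (X 0 + X 1) ^ (B - 2 ^ Q) * (X 0 ^ (2 ^ Q) + X 1 ^ (2 ^ Q)) := by
      rw [← add_pow_char_pow, ← pow_add, Nat.sub_add_cancel h3]
    have ha : (X 0 * X 1 : R) ^ A = (X 0 * X 1) ^ (A - (2 ^ e - 2 ^ Q)) *
        (X 0 * X 1) ^ (2 ^ e - 2 ^ Q) := by
      rw [← pow_add, Nat.sub_add_cancel (by omega)]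
    have hx : (X 0 : R) ^ (2 ^ e - 2 ^ Q) * X 0 ^ (2 ^ Q) = X 0 ^ (2 ^ e) := by
      rw [← pow_add, Nat.sub_add_cancel hQe]
    have hy : (X 1 : R) ^ (2 ^ e - 2 ^ Q) * X 1 ^ (2 ^ Q) = X 1 ^ (2 ^ e) := by
      rw [← pow_add, Nat.sub_add_cancel hQe]
    have : (X 0 * X 1 : R) ^ A * (X 0 + X 1) ^ B =
        ((X 0 * X 1) ^ (A - (2 ^ e - 2 ^ Q)) * (X 0 + X 1) ^ (B - 2 ^ Q) *
          (X 1) ^ (2 ^ e - 2 ^ Q)) * (X 0 : R) ^ (2 ^ e) +
        ((X 0 * X 1) ^ (A - (2 ^ e - 2 ^ Q)) * (X 0 + X 1) ^ (B - 2 ^ Q) *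
          (X 0) ^ (2 ^ e - 2 ^ Q)) * (X 1 : R) ^ (2 ^ e) := by
      rw [ha, hb, mul_pow (X 0 : R) (X 1) (2 ^ e - 2 ^ Q), ← hx, ← hy]
      ring
    rw [this]
    exact Ideal.add_mem _ (Ideal.mul_mem_left _ _ (X_mem e 0)) (Ideal.mul_mem_left _ _ (X_mem e 1))

end Pool.Agent.J4H55.MTI
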