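import Pool.Agent.J4H55.MTI.Alg

set_option autoImplicit false

/-! The regions of constancy of the mixed test ideals of `(xy)` and `(x+y)` in `F_2[x,y]` are not
polyhedral. -/

namespace Pool.Agent.J4H55.MTI

open MvPolynomial

lemma frob_finite : (frobenius R 2).Finite := by
  apply RingHom.IsIntegral.to_finite
  · intro r
    refine ⟨Polynomial.X ^ 2 - Polynomial.C r, ?_, ?_⟩
    · exact Polynomial.monic_X_pow_sub_C r two_ne_zero
    · rw [Polynomial.eval₂_sub, Polynomial.eval₂_pow, Polynomial.eval₂_X, Polynomial.eval₂_C,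
        frobenius_def, sub_self]
  · have h : ((frobenius R 2).comp (algebraMap (ZMod 2) R)).FiniteType := by
      have e1 : (frobenius R 2).comp (algebraMap (ZMod 2) R) = algebraMap (ZMod 2) R := by
        exact Subsingleton.elim _ _
      rw [e1]
      exact RingHom.finiteType_algebraMap.mpr inferInstance
    exact RingHom.FiniteType.of_comp_finiteType h

/-- the two ideals. -/
noncomputable def Id (i : Fin 2) : Ideal R := if i = 0 then Ideal.span {X 0 * X 1} else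
  Ideal.span {X 0 + X 1}

/-- the test ideal. -/
noncomputable def tau (x : Fin 2 → ℝ) : Ideal R :=
  ⨆ e : ℕ, sInf {K : Ideal R |
    (∏ i, Id i ^ ⌈x i * ((2 : ℕ) : ℝ) ^ e⌉₊) ≤ Ideal.map (iterateFrobenius R 2 e) K}

lemma prod_eq (x : Fin 2 → ℝ) (e : ℕ) : (∏ i, Id i ^ ⌈x i * ((2 : ℕ) : ℝ) ^ e⌉₊) =
    Ideal.span {(X 0 * X 1 : R) ^ ⌈x 0 * ((2 : ℕ) : ℝ) ^ e⌉₊ *
      (X 0 + X 1) ^ ⌈x 1 * ((2 : ℕ) : ℝ) ^ e⌉₊} := by
  rw [Fin.prod_univ_two]
  simp only [Id, if_true, one_ne_zero, if_false]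
  rw [Ideal.span_singleton_pow, Ideal.span_singleton_pow, Ideal.span_singleton_mul_span_singleton]

lemma tau_le (x : Fin 2 → ℝ) (m : ℕ) (h0 : 1 - x 0 ≤ (1 / 2 : ℝ) ^ m) (h1 : (1 / 2 : ℝ) ^ m ≤ x 1) :
    tau x ≤ mx := by
  apply iSup_le
  intro e
  apply sInf_le
  rw [Set.mem_ofPred_eq, prod_eq, Ideal.span_singleton_le_iff_mem]
  apply in_mx e m
  have hm : (0 : ℝ) < 2 ^ m := by positivity
  have he : (0 : ℝ) < 2 ^ e := by positivity
  have hmm : (1 / 2 : ℝ) ^ m * 2 ^ m = 1 := by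
    rw [← mul_pow]; norm_num
  rcases le_or_gt m e with h | h
  · right
    refine ⟨e - m, ?_, ?_, ?_⟩
    · rw [← pow_add]; congr 1; omega
    · have e1 : (2 : ℝ) ^ e = 2 ^ m * 2 ^ (e - m) := by rw [← pow_add]; congr 1; omega
      have hA := Nat.le_ceil (x 0 * ((2 : ℕ) : ℝ) ^ e)
      have : ((2 ^ e : ℕ) : ℝ) ≤ ((⌈x 0 * ((2 : ℕ) : ℝ) ^ e⌉₊ + 2 ^ (e - m) : ℕ) : ℝ) := by
        push_cast at hA ⊢
        have h2 : (1 - x 0) * 2 ^ e ≤ 2 ^ (e - m) := by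
          calc (1 - x 0) * 2 ^ e ≤ (1 / 2 : ℝ) ^ m * 2 ^ e := by
                exact mul_le_mul_of_nonneg_right h0 he.le
            _ = 2 ^ (e - m) := by rw [e1, ← mul_assoc, hmm, one_mul]
        nlinarith
      exact_mod_cast this
    · have e1 : (2 : ℝ) ^ e = 2 ^ m * 2 ^ (e - m) := by rw [← pow_add]; congr 1; omega
      have hB := Nat.le_ceil (x 1 * ((2 : ℕ) : ℝ) ^ e)
      have : ((2 ^ (e - m) : ℕ) : ℝ) ≤ ((⌈x 1 * ((2 : ℕ) : ℝ) ^ e⌉₊ : ℕ) : ℝ) := by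
        push_cast at hB ⊢
        have h2 : 2 ^ (e - m) ≤ x 1 * 2 ^ e := by
          calc (2 : ℝ) ^ (e - m) = (1 / 2 : ℝ) ^ m * 2 ^ e := by
                rw [e1, ← mul_assoc, hmm, one_mul]
            _ ≤ x 1 * 2 ^ e := mul_le_mul_of_nonneg_right h1 he.le
        linarith
      exact_mod_cast this
  · left
    have h2 : (2 : ℝ) ^ e * 2 ≤ 2 ^ m := by
      rw [← pow_succ]; exact pow_le_pow_right₀ (by norm_num) h
    have h3 : (1 - x 0) * 2 ^ e ≤ 1 / 2 := by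
      calc (1 - x 0) * 2 ^ e ≤ (1 / 2 : ℝ) ^ m * 2 ^ e := mul_le_mul_of_nonneg_right h0 he.le
        _ ≤ (1 / 2 : ℝ) ^ m * (2 ^ m / 2) := by
            apply mul_le_mul_of_nonneg_left _ (by positivity)
            linarith
        _ = 1 / 2 := by rw [← mul_div_assoc, hmm]
    have hA := Nat.le_ceil (x 0 * ((2 : ℕ) : ℝ) ^ e)
    have h4 : ((2 ^ e : ℕ) : ℝ) < ((⌈x 0 * ((2 : ℕ) : ℝ) ^ e⌉₊ + 1 : ℕ) : ℝ) := by
      push_cast at hA ⊢
      nlinarith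
    have h5 : 2 ^ e < ⌈x 0 * ((2 : ℕ) : ℝ) ^ e⌉₊ + 1 := by exact_mod_cast h4
    omega

lemma tau_top (x : Fin 2 → ℝ) (k : ℕ) (h0 : (1 / 2 : ℝ) ^ (k + 1) < 1 - x 0)
    (h0' : 0 ≤ x 0) (h1' : 0 ≤ x 1) (h1 : x 1 < (1 / 2 : ℝ) ^ k) :
    tau x = ⊤ := by
  obtain ⟨e0, he0⟩ : ∃ e0 : ℕ, 1 < ((1 - x 0) - (1 / 2 : ℝ) ^ (k + 1)) * 2 ^ e0 := by
    obtain ⟨n, hn⟩ := pow_unbounded_of_one_lt (1 / ((1 - x 0) - (1 / 2 : ℝ) ^ (k + 1)))
      (by norm_num : (1 : ℝ) < 2)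
    refine ⟨n, ?_⟩
    have hpos : 0 < (1 - x 0) - (1 / 2 : ℝ) ^ (k + 1) := by linarith
    rw [div_lt_iff₀ hpos] at hn
    linarith
  obtain ⟨e1, he1⟩ : ∃ e1 : ℕ, 1 < ((1 / 2 : ℝ) ^ k - x 1) * 2 ^ e1 := by
    obtain ⟨n, hn⟩ := pow_unbounded_of_one_lt (1 / ((1 / 2 : ℝ) ^ k - x 1))
      (by norm_num : (1 : ℝ) < 2)
    refine ⟨n, ?_⟩
    have hpos : 0 < (1 / 2 : ℝ) ^ k - x 1 := by linarith
    rw [div_lt_iff₀ hpos] at hn
    linarith
  set e := e0 + e1 + (k + 1) with hedef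
  have he0' : 1 < ((1 - x 0) - (1 / 2 : ℝ) ^ (k + 1)) * 2 ^ e := by
    have hpos : 0 < (1 - x 0) - (1 / 2 : ℝ) ^ (k + 1) := by linarith
    have : (2 : ℝ) ^ e0 ≤ 2 ^ e := pow_le_pow_right₀ (by norm_num) (by omega)
    nlinarith
  have he1' : 1 < ((1 / 2 : ℝ) ^ k - x 1) * 2 ^ e := by
    have hpos : 0 < (1 / 2 : ℝ) ^ k - x 1 := by linarith
    have : (2 : ℝ) ^ e1 ≤ 2 ^ e := pow_le_pow_right₀ (by norm_num) (by omega)
    nlinarith
  have hc : (1 / 2 : ℝ) ^ (k + 1) * 2 ^ e = 2 ^ (e0 + e1) := by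
    rw [hedef, pow_add (2 : ℝ) (e0 + e1) (k + 1), mul_comm, mul_assoc, ← mul_pow]; norm_num
  have hc' : (1 / 2 : ℝ) ^ k * 2 ^ e = 2 ^ (e0 + e1 + 1) := by
    have : (1 / 2 : ℝ) ^ k = 2 * (1 / 2 : ℝ) ^ (k + 1) := by rw [pow_succ]; ring
    rw [this, mul_assoc, hc, pow_succ]; ring
  have key : ∀ K : Ideal R, (∏ i, Id i ^ ⌈x i * ((2 : ℕ) : ℝ) ^ e⌉₊) ≤
      Ideal.map (iterateFrobenius R 2 e) K → K = ⊤ := by
    intro K hK
    rw [prod_eq, Ideal.span_singleton_le_iff_mem] at hK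
    apply top_of e (e0 + e1) _ _ _ _ K hK
    · have hnn : 0 ≤ x 0 * ((2 : ℕ) : ℝ) ^ e := by positivity
      have hA := Nat.ceil_lt_add_one hnn
      have : ((⌈x 0 * ((2 : ℕ) : ℝ) ^ e⌉₊ + 2 ^ (e0 + e1) : ℕ) : ℝ) < ((2 ^ e : ℕ) : ℝ) := by
        push_cast at hA ⊢
        rw [← hc]
        nlinarith
      exact_mod_cast this
    · have hnn : 0 ≤ x 1 * ((2 : ℕ) : ℝ) ^ e := by positivity
      have hB := Nat.ceil_lt_add_one hnn
      have : ((⌈x 1 * ((2 : ℕ) : ℝ) ^ e⌉₊ : ℕ) : ℝ) < ((2 ^ (e0 + e1 + 1) : ℕ) : ℝ) := by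
        push_cast at hB ⊢
        rw [← hc']
        nlinarith
      exact_mod_cast this
  rw [eq_top_iff]
  refine le_trans ?_ (le_iSup _ e)
  apply le_sInf
  intro K hK
  rw [key K hK]

/-- the open sets near the corners. -/
def O (k : ℕ) : Set (Fin 2 → ℝ) :=
  {x | (1 / 2 : ℝ) ^ (k + 1) < 1 - x 0 ∧ 1 - x 0 < (1 / 2 : ℝ) ^ (k + 1) * (9 / 8) ∧
    (1 / 2 : ℝ) ^ k * (7 / 8) < x 1 ∧ x 1 < (1 / 2 : ℝ) ^ k}

lemma O_open (k : ℕ) : IsOpen (O k) := by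
  have c0 : Continuous fun x : Fin 2 → ℝ => x 0 := continuous_apply 0
  have c1 : Continuous fun x : Fin 2 → ℝ => x 1 := continuous_apply 1
  unfold O
  refine IsOpen.inter (isOpen_lt continuous_const (continuous_const.sub c0)) ?_
  refine IsOpen.inter (isOpen_lt (continuous_const.sub c0) continuous_const) ?_
  exact IsOpen.inter (isOpen_lt continuous_const c1) (isOpen_lt c1 continuous_const)

lemma O_nonempty (k : ℕ) : (O k).Nonempty := by
  refine ⟨![1 - (1 / 2 : ℝ) ^ (k + 1) * (17 / 16), (1 / 2 : ℝ) ^ k * (15 / 16)], ?_⟩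
  have h1 : (0 : ℝ) < (1 / 2 : ℝ) ^ (k + 1) := by positivity
  have h2 : (0 : ℝ) < (1 / 2 : ℝ) ^ k := by positivity
  refine ⟨?_, ?_, ?_, ?_⟩ <;> simp only [Matrix.cons_val_zero, Matrix.cons_val_one] <;> linarith

lemma O_box (k : ℕ) : O k ⊆ {x | ∀ i, 0 ≤ x i ∧ x i ≤ 1} := by
  rintro x ⟨h1, h2, h3, h4⟩ i
  have a1 : (0 : ℝ) < (1 / 2 : ℝ) ^ (k + 1) := by positivity
  have a2 : (0 : ℝ) < (1 / 2 : ℝ) ^ k := by positivity
  have a3 : (1 / 2 : ℝ) ^ k ≤ 1 := pow_le_one₀ (by norm_num) (by norm_num)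
  have a4 : (1 / 2 : ℝ) ^ (k + 1) ≤ 1 / 2 := by rw [pow_succ]; linarith
  have b0 : 0 ≤ x 0 ∧ x 0 ≤ 1 := ⟨by linarith, by linarith⟩
  have b1 : 0 ≤ x 1 ∧ x 1 ≤ 1 := ⟨by nlinarith, by linarith⟩
  fin_cases i
  · exact b0
  · exact b1

lemma separate (P : Set (Fin 2 → ℝ)) (hP : Convex ℝ P)
    (hc : ∀ x ∈ interior P, ∀ y ∈ interior P, tau x = tau y)
    (k l : ℕ) (hkl : k < l) (a b : Fin 2 → ℝ) (ha : a ∈ O k) (hb : b ∈ O l)
    (ha' : a ∈ interior P) (hb' : b ∈ interior P) : False := by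
  obtain ⟨a1, a2, a3, a4⟩ := ha
  obtain ⟨b1, b2, b3, b4⟩ := hb
  have hpos : (0 : ℝ) < (1 / 2 : ℝ) ^ (k + 1) := by positivity
  have hposl : (0 : ℝ) < (1 / 2 : ℝ) ^ (l + 1) := by positivity
  have hposl' : (0 : ℝ) < (1 / 2 : ℝ) ^ l := by positivity
  have hk : (1 / 2 : ℝ) ^ k = 2 * (1 / 2 : ℝ) ^ (k + 1) := by rw [pow_succ]; ring
  have hl : (1 / 2 : ℝ) ^ (l + 1) ≤ (1 / 2 : ℝ) ^ (k + 1) / 2 := by
    have : (1 / 2 : ℝ) ^ (l + 1) ≤ (1 / 2 : ℝ) ^ (k + 1 + 1) :=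
      pow_le_pow_of_le_one (by norm_num) (by norm_num) (by omega)
    rw [pow_succ _ (k + 1)] at this
    linarith
  have hk1 : (1 / 2 : ℝ) ^ k ≤ 1 := pow_le_one₀ (by norm_num) (by norm_num)
  set h := (1 / 2 : ℝ) ^ (k + 1) with hh
  have hmem : (5 / 7 : ℝ) • a + (2 / 7 : ℝ) • b ∈ interior P :=
    hP.interior ha' hb' (by norm_num) (by norm_num) (by norm_num)
  have htop : tau a = ⊤ := tau_top a k a1 (by linarith) (by nlinarith) a4
  have hle : tau ((5 / 7 : ℝ) • a + (2 / 7 : ℝ) • b) ≤ mx := by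
    apply tau_le _ (k + 1)
    · simp only [Pi.add_apply, Pi.smul_apply, smul_eq_mul]
      linarith
    · simp only [Pi.add_apply, Pi.smul_apply, smul_eq_mul]
      have : 0 < b 1 := by nlinarith
      rw [hk] at a3
      linarith
  rw [← hc a ha' _ hmem, htop] at hle
  exact mx_ne_top (top_le_iff.mp hle)

theorem no_dec (n : ℕ) (P : Fin n → Set (Fin 2 → ℝ))
    (hpoly : ∀ k, ∃ (m : ℕ) (A : Fin m → Fin 2 → ℚ) (b : Fin m → ℚ),
            P k = {x : Fin 2 → ℝ | ∀ j, ∑ i, (A j i : ℝ) * x i ≤ (b j : ℝ)})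
    (hcov : {x : Fin 2 → ℝ | ∀ i, 0 ≤ x i ∧ x i ≤ 1} ⊆ ⋃ k, P k)
    (hconst : ∀ k, ∀ x ∈ interior (P k), ∀ y ∈ interior (P k), tau x = tau y) : False := by
  have hconv : ∀ k, Convex ℝ (P k) := by
    intro k
    obtain ⟨m, A, b, h⟩ := hpoly k
    rw [h, Set.ofPred_forall]
    refine convex_iInter fun j => ?_
    apply convex_halfSpace_le
    exact ⟨fun x y => by simp [mul_add, Finset.sum_add_distrib],
      fun c x => by simp only [Pi.smul_apply, smul_eq_mul, Finset.mul_sum]; congr 1; ext i; ring⟩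
  have hclosed : ∀ k, IsClosed (P k) := by
    intro k
    obtain ⟨m, A, b, h⟩ := hpoly k
    rw [h, Set.ofPred_forall]
    refine isClosed_iInter fun j => ?_
    apply isClosed_le
    · exact continuous_finsetSum _ fun i _ => continuous_const.mul (continuous_apply i)
    · exact continuous_const
  have hmeet : ∀ k : ℕ, ∃ j : Fin n, (O k ∩ interior (P j)).Nonempty := by
    intro k
    by_contra hcon
    push Not at hcon
    have hsub : O k ⊆ ⋃ j, frontier (P j) := by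
      intro x hx
      obtain ⟨j, hj⟩ := Set.mem_iUnion.mp (hcov (O_box k hx))
      rw [Set.mem_iUnion]
      refine ⟨j, ?_⟩
      rw [(hclosed j).frontier_eq]
      refine ⟨hj, fun hi => ?_⟩
      have : x ∈ O k ∩ interior (P j) := ⟨hx, hi⟩
      rw [hcon j] at this
      exact this
    have hnd : interior (⋃ j, frontier (P j)) = ∅ := by
      have hfin : ∀ s : Finset (Fin n), interior (⋃ j ∈ s, frontier (P j)) = ∅ := by
        intro s
        induction s using Finset.induction_on with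
        | empty => simp
        | insert a s ha ih =>
          have hcl : IsClosed (⋃ j ∈ s, frontier (P j)) :=
            isClosed_biUnion_finset fun j _ => isClosed_frontier
          rw [Finset.set_biUnion_insert, Set.union_comm,
            interior_union_isClosed_of_interior_empty hcl (interior_frontier (hclosed a)), ih]
      have := hfin Finset.univ
      simpa using this
    obtain ⟨x, hx⟩ := O_nonempty k
    have : x ∈ interior (⋃ j, frontier (P j)) := interior_maximal hsub (O_open k) hx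
    rw [hnd] at this
    exact this
  choose f hf using hmeet
  obtain ⟨k, l, hkl, hfe⟩ := Finite.exists_ne_map_eq_of_infinite f
  obtain ⟨a, ha, ha'⟩ := hf k
  obtain ⟨b, hb, hb'⟩ := hf l
  rw [← hfe] at hb'
  rcases lt_or_gt_of_ne hkl with h | h
  · exact separate (P (f k)) (hconv _) (hconst _) k l h a b ha hb ha' hb'
  · exact separate (P (f k)) (hconv _) (hconst _) l k h b a hb ha hb' ha'

end Pool.Agent.J4H55.MTI
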